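import Mathlib

/-!
# Pochhammer determinants of Polya frequency sequences: definitions
-/

set_option autoImplicit false

noncomputable section

namespace Pool.Agent.KS6_52.HZ

/-- The polynomial `P_n^r` of the sequence `f`: the sum over the `r`-tuples `k` of naturals of sum
`n` of `(n choose k_1, ..., k_r) f_{k_1} ... f_{k_r} det[(z + j - i)_{k_i}]`. -/
def P (n r : ℕ) (f : ℤ → ℝ) : Polynomial ℝ :=
  ∑ k ∈ Finset.Nat.antidiagonalTuple r n,
    Polynomial.C ((Nat.multinomial Finset.univ k : ℝ) * ∏ i, f ((k i : ℕ) : ℤ)) *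
    (Matrix.of fun (i j : Fin r) => (ascPochhammer ℝ (k i)).comp
      (Polynomial.X + Polynomial.C (((j : ℕ) : ℝ) - ((i : ℕ) : ℝ)))).det

/-- `f_0, ..., f_n` (extended by zero) is a Polya frequency sequence of order `d`, of genuine length
`n + 1`: it vanishes outside `[0, n]`, `f_0, f_n > 0`, and all minors of order at most `d` of the
Toeplitz matrix `(f_{i-j})` are non-negative. -/
def IsPF (d n : ℕ) (f : ℤ → ℝ) : Prop :=
  (∀ k : ℤ, (k < 0 ∨ (n : ℤ) < k) → f k = 0) ∧ 0 < f 0 ∧ 0 < f (n : ℤ) ∧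
  ∀ m : ℕ, m ≤ d → ∀ a b : Fin m → ℤ, StrictMono a → StrictMono b →
    0 ≤ (Matrix.of fun s t => f (a s - b t)).det

/-- The rising factorial `z (z + 1) ⋯ (z + k - 1)` of a complex number. -/
def poc (z : ℂ) (k : ℕ) : ℂ := ∏ i ∈ Finset.range k, (z + i)

lemma poc_zero (z : ℂ) : poc z 0 = 1 := by simp [poc]

lemma poc_succ (z : ℂ) (k : ℕ) : poc z (k + 1) = poc z k * (z + k) := by
  simp [poc, Finset.prod_range_succ]

lemma poc_succ' (z : ℂ) (k : ℕ) : poc z (k + 1) = z * poc (z + 1) k := by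
  simp only [poc, Finset.prod_range_succ']
  rw [mul_comm]
  congr 1
  · simp
  · refine Finset.prod_congr rfl fun i _ => ?_
    push_cast
    ring

lemma poc_add (z : ℂ) (k l : ℕ) : poc z (k + l) = poc z k * poc (z + k) l := by
  simp only [poc, Finset.prod_range_add]
  congr 1
  refine Finset.prod_congr rfl fun i _ => ?_
  push_cast
  ring

lemma ev (z : ℂ) (k : ℕ) : Polynomial.aeval z (ascPochhammer ℝ k) = poc z k := by
  induction k with
  | zero => simp [poc]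
  | succ k ih => rw [ascPochhammer_succ_right, map_mul, ih, poc_succ]; simp

/-- `(z)_k / k!`. -/
def v (z : ℂ) (k : ℕ) : ℂ := poc z k / k.factorial

lemma v_zero (z : ℂ) : v z 0 = 1 := by simp [v, poc_zero]

/-- `(z)_{k+1} / (k+1)! = (z+1)_{k+1} / (k+1)! - (z+1)_k / k!`. -/
lemma v_succ (z : ℂ) (k : ℕ) : v z (k + 1) = v (z + 1) (k + 1) - v (z + 1) k := by
  have h1 : ((k + 1).factorial : ℂ) ≠ 0 := by exact_mod_cast Nat.factorial_ne_zero _
  have h2 : (k.factorial : ℂ) ≠ 0 := by exact_mod_cast Nat.factorial_ne_zero _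
  have h3 : ((k + 1).factorial : ℂ) = (k + 1) * k.factorial := by
    push_cast [Nat.factorial_succ]; ring
  have h4 : (k + 1 : ℂ) ≠ 0 := by exact_mod_cast Nat.succ_ne_zero k
  simp only [v]
  rw [poc_succ', poc_succ, h3]
  field_simp
  ring

/-- The sum defining `P_n^2`. -/
lemma evP (z : ℂ) (n : ℕ) (f : ℤ → ℝ) : Polynomial.aeval z (P n 2 f) =
    n.factorial * ∑ p ∈ Finset.HasAntidiagonal.antidiagonal n, (f p.1 : ℂ) * f p.2 *
      (v z p.1 * v z p.2 - v (z + 1) p.1 * v (z - 1) p.2) := by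
  rw [P, Finset.Nat.antidiagonalTuple_two, Finset.sum_map, map_sum, Finset.mul_sum]
  refine Finset.sum_congr rfl fun p hp => ?_
  have hp' : p.1 + p.2 = n := Finset.HasAntidiagonal.mem_antidiagonal.1 hp
  subst hp'
  have h1 : ((p.1).factorial : ℂ) ≠ 0 := by exact_mod_cast Nat.factorial_ne_zero _
  have h2 : ((p.2).factorial : ℂ) ≠ 0 := by exact_mod_cast Nat.factorial_ne_zero _
  have h3 : (((p.1 + p.2).factorial / (p.1.factorial * p.2.factorial) : ℕ) : ℂ) *
      (p.1.factorial * p.2.factorial) = (p.1 + p.2).factorial := by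
    exact_mod_cast Nat.div_mul_cancel (Nat.factorial_mul_factorial_dvd_factorial_add p.1 p.2)
  simp [Matrix.det_fin_two, Polynomial.aeval_comp, ev, Nat.multinomial_univ_two, v, sub_eq_add_neg]
  rw [← h3]
  field_simp

/-- The sum over `p + q = n` of `a (p - 1) q`, with `a (-1) q = 0`, is the sum over
`p + q = n - 1` of `a p q`. -/
lemma sum_shift_left {n : ℕ} (a b : ℕ × ℕ → ℂ) (h0 : ∀ q, a (0, q) = 0)
    (h : ∀ p q, a (p + 1, q) = b (p, q)) :
    ∑ p ∈ Finset.HasAntidiagonal.antidiagonal (n + 1), a p =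
      ∑ p ∈ Finset.HasAntidiagonal.antidiagonal n, b p := by
  rw [Finset.Nat.sum_antidiagonal_succ, h0, zero_add]
  exact Finset.sum_congr rfl fun p _ => h p.1 p.2

/-- The sum over `p + q = n` of `a p (q - 1)`, with `a p (-1) = 0`, is the sum over
`p + q = n - 1` of `a p q`. -/
lemma sum_shift_right {n : ℕ} (a b : ℕ × ℕ → ℂ) (h0 : ∀ p, a (p, 0) = 0)
    (h : ∀ p q, a (p, q + 1) = b (p, q)) :
    ∑ p ∈ Finset.HasAntidiagonal.antidiagonal (n + 1), a p =
      ∑ p ∈ Finset.HasAntidiagonal.antidiagonal n, b p := by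
  rw [Finset.Nat.sum_antidiagonal_succ', h0, zero_add]
  exact Finset.sum_congr rfl fun p _ => h p.1 p.2

/-- `v` shifted by one place. -/
def v1 (z : ℂ) : ℕ → ℂ
  | 0 => 0
  | k + 1 => v z k

/-- `v` shifted by two places. -/
def v2 (z : ℂ) : ℕ → ℂ
  | 0 => 0
  | k + 1 => v1 z k

lemma v_eq (z : ℂ) (k : ℕ) : v z k = v (z + 1) k - v1 (z + 1) k := by
  cases k with
  | zero => simp [v_zero, v1]
  | succ k => rw [v_succ, v1]

lemma v1_eq (z : ℂ) (k : ℕ) : v1 z k = v1 (z + 1) k - v2 (z + 1) k := by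
  cases k with
  | zero => simp [v1, v2]
  | succ k => rw [v1, v1, v2, v_eq]

lemma w_eq (z : ℂ) (k : ℕ) : v (z - 1) k = v (z + 1) k - 2 * v1 (z + 1) k + v2 (z + 1) k := by
  have h1 := v_eq (z - 1) k
  have h2 := v1_eq (z - 1 + 1) k
  have h3 := v_eq z k
  have e : z - 1 + 1 = z := by ring
  rw [e] at h1 h2
  rw [h1, h2, h3]
  ring

/-- `P_n^2(z) / n!` is the sum over `p + q = n - 2` of
`(f_{p+1} f_{q+1} - f_p f_{q+2}) (z+1)_p / p! (z+1)_q / q!`. -/
lemma evP2 (z : ℂ) (n : ℕ) (f : ℤ → ℝ) : Polynomial.aeval z (P (n + 2) 2 f) =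
    (n + 2).factorial * ∑ p ∈ Finset.HasAntidiagonal.antidiagonal n,
      ((f (p.1 + 1) * f (p.2 + 1) - f p.1 * f (p.2 + 2) : ℝ) : ℂ) *
        (v (z + 1) p.1 * v (z + 1) p.2) := by
  rw [evP]
  congr 1
  have e : ∀ p : ℕ × ℕ, (f p.1 : ℂ) * f p.2 * (v z p.1 * v z p.2 - v (z + 1) p.1 * v (z - 1) p.2) =
      (f p.1 : ℂ) * f p.2 * (v (z + 1) p.1 * v1 (z + 1) p.2) -
      (f p.1 : ℂ) * f p.2 * (v1 (z + 1) p.1 * v (z + 1) p.2) +
      (f p.1 : ℂ) * f p.2 * (v1 (z + 1) p.1 * v1 (z + 1) p.2) -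
      (f p.1 : ℂ) * f p.2 * (v (z + 1) p.1 * v2 (z + 1) p.2) := by
    intro p
    rw [v_eq z p.1, v_eq z p.2, w_eq z p.2]
    ring
  simp only [e, Finset.sum_sub_distrib, Finset.sum_add_distrib]
  have hs : ∑ p ∈ Finset.HasAntidiagonal.antidiagonal (n + 2),
      (f p.1 : ℂ) * f p.2 * (v (z + 1) p.1 * v1 (z + 1) p.2) =
      ∑ p ∈ Finset.HasAntidiagonal.antidiagonal (n + 2),
      (f p.1 : ℂ) * f p.2 * (v1 (z + 1) p.1 * v (z + 1) p.2) := by
    rw [← Finset.Nat.sum_antidiagonal_swap]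
    refine Finset.sum_congr rfl fun p _ => ?_
    simp only [Prod.fst_swap, Prod.snd_swap]
    ring
  have h1 : ∑ p ∈ Finset.HasAntidiagonal.antidiagonal (n + 2),
      (f p.1 : ℂ) * f p.2 * (v1 (z + 1) p.1 * v1 (z + 1) p.2) =
      ∑ p ∈ Finset.HasAntidiagonal.antidiagonal n,
      ((f (p.1 + 1) * f (p.2 + 1) : ℝ) : ℂ) * (v (z + 1) p.1 * v (z + 1) p.2) := by
    rw [sum_shift_left (n := n + 1) _ (fun p => (f (p.1 + 1) : ℂ) * f p.2 *
      (v (z + 1) p.1 * v1 (z + 1) p.2)) (fun q => by simp [v1]) (fun p q => by simp [v1])]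
    refine sum_shift_right (n := n) _ _ (fun q => by simp [v1]) (fun p q => by simp [v1])
  have h2 : ∑ p ∈ Finset.HasAntidiagonal.antidiagonal (n + 2),
      (f p.1 : ℂ) * f p.2 * (v (z + 1) p.1 * v2 (z + 1) p.2) =
      ∑ p ∈ Finset.HasAntidiagonal.antidiagonal n,
      ((f p.1 * f (p.2 + 2) : ℝ) : ℂ) * (v (z + 1) p.1 * v (z + 1) p.2) := by
    rw [sum_shift_right (n := n + 1) _ (fun p => (f p.1 : ℂ) * f (p.2 + 1) *
      (v (z + 1) p.1 * v1 (z + 1) p.2)) (fun q => by simp [v2]) (fun p q => by simp [v2])]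
    refine sum_shift_right (n := n) _ _ (fun q => by simp [v1])
      (fun p q => by simp [v1, add_assoc])
  rw [hs, sub_self, zero_add, h1, h2, ← Finset.sum_sub_distrib]
  refine Finset.sum_congr rfl fun p _ => ?_
  push_cast
  ring

end Pool.Agent.KS6_52.HZ
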