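import Pool.Agent.KS6_52.HZ.Zero

/-!
# Numerical part
-/

set_option autoImplicit false

noncomputable section

namespace Pool.Agent.KS6_52.HZ

open Real

lemma arctan_sub' {a b c : ℝ} (ha : 0 ≤ a) (hb : 0 ≤ b) (h : (a - b) / (1 + a * b) = c) :
    arctan a - arctan b = arctan c := by
  have h1 := arctan_add (x := a) (y := -b) (by nlinarith [mul_nonneg ha hb])
  rw [arctan_neg] at h1
  rw [sub_eq_add_neg, h1, ← h]
  congr 1
  ring

lemma arctan_add' {a b c : ℝ} (hab : a * b < 1) (h : (a + b) / (1 - a * b) = c) :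
    arctan a + arctan b = arctan c := by
  rw [arctan_add hab, h]

lemma arctan_add'' {a b c : ℝ} (ha : 0 < a) (hab : 1 < a * b) (h : (a + b) / (1 - a * b) = c) :
    arctan a + arctan b = arctan c + π := by
  rw [arctan_add_eq_add_pi hab ha, h]

lemma num : π ≤ th 6 (1 / 10 + 1) 5 - th 6 (1 / 10 + 1 + 7) 5 := by
  have e : th 6 (1 / 10 + 1) 5 - th 6 (1 / 10 + 1 + 7) 5 =
      (arctan (50 / 11) - arctan (50 / 81)) +
      (arctan (50 / 21) - arctan (50 / 91)) +
      (arctan (50 / 31) - arctan (50 / 101)) +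
      (arctan (50 / 41) - arctan (50 / 111)) +
      (arctan (50 / 51) - arctan (50 / 121)) +
      (arctan (50 / 61) - arctan (50 / 131)) := by
    simp only [th, Finset.sum_range_succ, Finset.sum_range_zero]
    norm_num
    ring
  have d0 := arctan_sub' (a := (50 / 11)) (b := (50 / 81)) (c := (3500 / 3391)) (by norm_num) (by norm_num)
    (by norm_num)
  have d1 := arctan_sub' (a := (50 / 21)) (b := (50 / 91)) (c := (3500 / 4411)) (by norm_num) (by norm_num)
    (by norm_num)
  have d2 := arctan_sub' (a := (50 / 31)) (b := (50 / 101)) (c := (3500 / 5631)) (by norm_num) (by norm_num)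
    (by norm_num)
  have d3 := arctan_sub' (a := (50 / 41)) (b := (50 / 111)) (c := (3500 / 7051)) (by norm_num) (by norm_num)
    (by norm_num)
  have d4 := arctan_sub' (a := (50 / 51)) (b := (50 / 121)) (c := (3500 / 8671)) (by norm_num) (by norm_num)
    (by norm_num)
  have d5 := arctan_sub' (a := (50 / 61)) (b := (50 / 131)) (c := (3500 / 10491)) (by norm_num) (by norm_num)
    (by norm_num)
  have t1 := arctan_add' (a := (3500 / 3391)) (b := (3500 / 4411)) (c := (27307000 / 2707701)) (by norm_num) (by norm_num)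
  have t2 := arctan_add' (a := (3500 / 5631)) (b := (3500 / 7051)) (c := (44387000 / 27454181)) (by norm_num) (by norm_num)
  have t3 := arctan_add' (a := (3500 / 8671)) (b := (3500 / 10491)) (c := (67067000 / 78717461)) (by norm_num) (by norm_num)
  have t4 := arctan_add'' (a := (27307000 / 2707701)) (b := (44387000 / 27454181)) (c := (-(66913695758000 / 87518315050163))) (by norm_num) (by norm_num)
    (by norm_num)
  have t5 := arctan_add' (a := (-(66913695758000 / 87518315050163))) (b := (67067000 / 78717461)) (c := (602314599273051483000 / 11376920385148704996143)) (by norm_num) (by norm_num)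
  have t6 : 0 ≤ arctan ((602314599273051483000 / 11376920385148704996143) : ℝ) := arctan_nonneg.2 (by norm_num)
  rw [e, d0, d1, d2, d3, d4, d5]
  linarith

/-- The argument decreases with the starting point. -/
lemma th_anti {l : ℕ} {a b y : ℝ} (ha : 0 < a) (hab : a ≤ b) (hy : 0 ≤ y) :
    th l b y ≤ th l a y := by
  unfold th
  refine Finset.sum_le_sum fun j _ => arctan_mono ?_
  have : (0 : ℝ) < a + j := by positivity
  exact div_le_div_of_nonneg_left hy this (by linarith)

/-- In every length at least 16 there is a counterexample. -/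
lemma fifteen {n : ℕ} (hn : 15 ≤ n) : ∃ f : ℤ → ℝ, IsPF 2 n f ∧ P n 2 f ≠ 0 ∧
    ∃ z : ℂ, z.re = 1 / 10 ∧ Polynomial.aeval z (P n 2 f) = 0 := by
  obtain ⟨K, rfl⟩ : ∃ K, n = K + 6 + 2 := ⟨n - 8, by omega⟩
  refine exists_zero (by norm_num) (by norm_num) (by omega) (y0 := 5) (by norm_num) ?_
  refine num.trans (sub_le_sub_left (th_anti (by norm_num) ?_ (by norm_num)) _)
  have : (7 : ℝ) ≤ K := by exact_mod_cast (by omega : 7 ≤ K)
  linarith

lemma arctan_le_self' {x : ℝ} (hx : 0 ≤ x) : arctan x ≤ x := by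
  have h : 0 ≤ arctan x := arctan_nonneg.2 hx
  have := Real.le_tan h (arctan_lt_pi_div_two x)
  rwa [tan_arctan] at this

/-- The real parts are unbounded. -/
lemma unbounded (M : ℝ) (hM : 0 ≤ M) : ∃ N : ℕ, ∀ n : ℕ, N ≤ n → ∃ f : ℤ → ℝ, IsPF 2 n f ∧
    P n 2 f ≠ 0 ∧ ∃ z : ℂ, z.re = M ∧ Polynomial.aeval z (P n 2 f) = 0 := by
  have hpi := pi_pos
  set T := tan (5 * π / 12) with hT
  have hT0 : 0 < T := tan_pos_of_pos_of_lt_pi_div_two (by positivity) (by linarith)
  have hTa : arctan T = 5 * π / 12 := arctan_tan (by linarith) (by linarith)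
  set y0 := (M + 3) * T with hy0
  have hy : 0 < y0 := by positivity
  obtain ⟨N, hN⟩ := exists_nat_ge (12 * y0 / π)
  refine ⟨N + 10, fun n hn => ?_⟩
  obtain ⟨K, rfl⟩ : ∃ K, n = K + 3 + 2 := ⟨n - 5, by omega⟩
  refine exists_zero hM (by norm_num) (by omega) hy.le ?_
  have hK : (N : ℝ) ≤ K := by exact_mod_cast (by omega : N ≤ K)
  have hK0 : (0 : ℝ) < K := by exact_mod_cast (by omega : 0 < K)
  have h1 : 3 * (5 * π / 12) ≤ th 3 (M + 1) y0 := by
    have : ∀ j ∈ Finset.range 3, 5 * π / 12 ≤ arctan (y0 / (M + 1 + j)) := by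
      intro j hj
      rw [← hTa]
      refine arctan_mono ?_
      rw [le_div_iff₀ (by positivity), hy0]
      have hj' : (j : ℝ) ≤ 2 := by
        have := Finset.mem_range.1 hj
        exact_mod_cast (by omega : j ≤ 2)
      nlinarith
    have h2 := Finset.sum_le_sum this
    simpa [th] using h2
  have h3 : th 3 (M + 1 + K) y0 ≤ 3 * (π / 12) := by
    have : ∀ j ∈ Finset.range 3, arctan (y0 / (M + 1 + K + j)) ≤ π / 12 := by
      intro j _
      refine (arctan_le_self' (by positivity)).trans ?_
      rw [div_le_iff₀ (by positivity)]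
      have h4 : 12 * y0 / π ≤ K := hN.trans hK
      rw [div_le_iff₀ hpi] at h4
      have : (0 : ℝ) ≤ j := by positivity
      nlinarith
    have h2 := Finset.sum_le_sum this
    simpa [th] using h2
  linarith

end Pool.Agent.KS6_52.HZ
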