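import Pool.Agent.KS6_52.HZ.Defs

/-!
# The sequence `1, A + 1, A + 2, ..., A + m, A + m, ..., A + m`
-/

set_option autoImplicit false

noncomputable section

namespace Pool.Agent.KS6_52.HZ

/-- The sequence `1, A + 1, A + 2, ..., A + m, A + m, ..., A + m` of length `n + 1`. -/
def F (n m : ℕ) (A : ℝ) (k : ℤ) : ℝ :=
  if k < 0 ∨ (n : ℤ) < k then 0 else if k = 0 then 1 else A + ((min k m : ℤ) : ℝ)

lemma F_out {n m : ℕ} {A : ℝ} {k : ℤ} (h : k < 0 ∨ (n : ℤ) < k) : F n m A k = 0 := if_pos h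

lemma F_zero {n m : ℕ} {A : ℝ} : F n m A 0 = 1 := by
  unfold F; rw [if_neg (by omega), if_pos rfl]

lemma F_mid {n m : ℕ} {A : ℝ} {k : ℤ} (h1 : 1 ≤ k) (h2 : k ≤ n) :
    F n m A k = A + ((min k m : ℤ) : ℝ) := by
  unfold F; rw [if_neg (by omega), if_neg (by omega)]

lemma F_pos {n m : ℕ} {A : ℝ} (hA : 1 ≤ A) {k : ℤ} (h1 : 0 ≤ k) (h2 : k ≤ n) :
    0 < F n m A k := by
  rcases eq_or_lt_of_le h1 with rfl | h
  · rw [F_zero]; norm_num
  · rw [F_mid (by omega) h2]
    have : (0 : ℝ) ≤ ((min k m : ℤ) : ℝ) := by exact_mod_cast (by omega : (0 : ℤ) ≤ min k m)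
    linarith

lemma F_nonneg {n m : ℕ} {A : ℝ} (hA : 1 ≤ A) (k : ℤ) : 0 ≤ F n m A k := by
  by_cases h : k < 0 ∨ (n : ℤ) < k
  · rw [F_out h]
  · exact (F_pos hA (by omega) (by omega)).le

lemma F_lc {n m : ℕ} {A : ℝ} (hA : 1 ≤ A) (hm : 1 ≤ m) {u x y w : ℤ} (h1 : u < x) (h2 : x < w)
    (e : x + y = u + w) : F n m A u * F n m A w ≤ F n m A x * F n m A y := by
  by_cases c : 0 ≤ u ∧ w ≤ n
  · obtain ⟨c1, c2⟩ := c
    rw [F_mid (k := x) (by omega) (by omega), F_mid (k := y) (by omega) (by omega),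
      F_mid (k := w) (by omega) (by omega)]
    have hx : (0 : ℤ) ≤ min x m := by omega
    have hy : (0 : ℤ) ≤ min y m := by omega
    rcases eq_or_lt_of_le c1 with h | h
    · subst h
      rw [F_zero]
      have h3 : (min w m : ℤ) ≤ min x m + min y m := by omega
      have hx' : (0 : ℝ) ≤ ((min x m : ℤ) : ℝ) := by exact_mod_cast hx
      have hy' : (0 : ℝ) ≤ ((min y m : ℤ) : ℝ) := by exact_mod_cast hy
      have h3' : ((min w m : ℤ) : ℝ) ≤ ((min x m : ℤ) : ℝ) + ((min y m : ℤ) : ℝ) := by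
        exact_mod_cast h3
      nlinarith [mul_nonneg hx' hy', mul_nonneg (sub_nonneg.2 hA) hx',
        mul_nonneg (sub_nonneg.2 hA) hy']
    · rw [F_mid (k := u) (by omega) (by omega)]
      have h3 : (min u m : ℤ) + min w m ≤ min x m + min y m := by omega
      have h4 : (min u m : ℤ) ≤ min x m := by omega
      have h5 : (min x m : ℤ) ≤ min w m := by omega
      generalize (min u m : ℤ) = bu at *
      generalize (min w m : ℤ) = bw at *
      generalize (min x m : ℤ) = bx at *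
      generalize (min y m : ℤ) = bY at *
      have k3 : (bu : ℝ) + bw ≤ bx + bY := by exact_mod_cast h3
      have k4 : (bu : ℝ) ≤ bx := by exact_mod_cast h4
      have k5 : (bx : ℝ) ≤ bw := by exact_mod_cast h5
      have k6 : (0 : ℝ) ≤ bx := by exact_mod_cast hx
      nlinarith [mul_nonneg (sub_nonneg.2 k4) (sub_nonneg.2 k5),
        mul_nonneg k6 (sub_nonneg.2 k3), mul_nonneg (show (0 : ℝ) ≤ A by linarith)
          (sub_nonneg.2 k3)]
  · have : F n m A u * F n m A w = 0 := by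
      rcases not_and_or.1 c with h | h
      · rw [F_out (k := u) (by omega), zero_mul]
      · rw [F_out (k := w) (by omega), mul_zero]
    rw [this]
    exact mul_nonneg (F_nonneg hA _) (F_nonneg hA _)

/-- The sequence is a Polya frequency sequence of order 2. -/
lemma F_pf {n m : ℕ} {A : ℝ} (hA : 1 ≤ A) (hm : 1 ≤ m) : IsPF 2 n (F n m A) := by
  refine ⟨fun k hk => F_out hk, F_pos hA le_rfl (by positivity), F_pos hA (by positivity) le_rfl,
    ?_⟩
  intro j hj a b ha hb
  interval_cases j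
  · simp
  · simpa using F_nonneg hA _
  · have h1 := ha (show (0 : Fin 2) < 1 by decide)
    have h2 := hb (show (0 : Fin 2) < 1 by decide)
    simp only [Matrix.det_fin_two, Matrix.of_apply, sub_nonneg]
    exact F_lc hA hm (by omega) (by omega) (by omega)

/-- The increments from the top. -/
def d (A : ℝ) (m k : ℕ) : ℝ := if k = 0 then A else if k < m then 1 else 0

lemma coef {n m : ℕ} {A : ℝ} (hm : 2 ≤ m) (hn : 2 * m ≤ n + 1) (p q : ℕ) (h : p + q = n) :
    F (n + 2) m A (p + 1) * F (n + 2) m A (q + 1) - F (n + 2) m A p * F (n + 2) m A (q + 2) =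
      (A + m) * (d A m p - d A m (q + 1)) := by
  rw [F_mid (k := (p : ℤ) + 1) (by omega) (by push_cast; omega),
    F_mid (k := (q : ℤ) + 1) (by omega) (by push_cast; omega),
    F_mid (k := (q : ℤ) + 2) (by omega) (by push_cast; omega)]
  rcases Nat.eq_zero_or_pos p with rfl | hp
  · have e1 : (min (((0 : ℕ) : ℤ) + 1) m) = 1 := by omega
    have e2 : (min ((q : ℤ) + 1) m) = m := by omega
    have e3 : (min ((q : ℤ) + 2) m) = m := by omega
    rw [e1, e2, e3]
    simp only [Nat.cast_zero, F_zero, d]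
    rw [if_pos trivial, if_neg (by omega), if_neg (by omega)]
    push_cast
    ring
  · rw [F_mid (k := (p : ℤ)) (by omega) (by push_cast; omega)]
    simp only [d]
    rw [if_neg (by omega), if_neg (by omega : ¬ q + 1 = 0)]
    by_cases h1 : p < m
    · rw [if_pos h1, if_neg (by omega)]
      have e1 : (min ((p : ℤ) + 1) m) = p + 1 := by omega
      have e2 : (min ((q : ℤ) + 1) m) = m := by omega
      have e3 : (min ((q : ℤ) + 2) m) = m := by omega
      have e4 : (min (p : ℤ) m) = p := by omega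
      rw [e1, e2, e3, e4]
      push_cast
      ring
    · rw [if_neg h1]
      have e1 : (min ((p : ℤ) + 1) m) = m := by omega
      have e4 : (min (p : ℤ) m) = m := by omega
      rw [e1, e4]
      by_cases h2 : q + 1 < m
      · rw [if_pos h2]
        have e2 : (min ((q : ℤ) + 1) m) = q + 1 := by omega
        have e3 : (min ((q : ℤ) + 2) m) = q + 2 := by omega
        rw [e2, e3]
        push_cast
        ring
      · rw [if_neg h2]
        have e2 : (min ((q : ℤ) + 1) m) = m := by omega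
        have e3 : (min ((q : ℤ) + 2) m) = m := by omega
        rw [e2, e3]
        push_cast
        ring

/-- The value of `P_n^2` for this sequence. -/
lemma evF (z : ℂ) {K l : ℕ} {A : ℝ} (hl : 1 ≤ l) (hK : l + 1 ≤ K) :
    Polynomial.aeval z (P (K + l + 2) 2 (F (K + l + 2) (l + 1) A)) =
      (K + l + 2).factorial * ((A + ((l + 1 : ℕ) : ℝ) : ℝ) : ℂ) *
        ((A - 1 : ℝ) * v (z + 1) (K + l) + v (z + 1) l * v (z + 1) K) := by
  rw [evP2, mul_assoc]
  congr 1
  have e : ∀ p ∈ Finset.HasAntidiagonal.antidiagonal (K + l),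
      ((F (K + l + 2) (l + 1) A (p.1 + 1) * F (K + l + 2) (l + 1) A (p.2 + 1) -
        F (K + l + 2) (l + 1) A p.1 * F (K + l + 2) (l + 1) A (p.2 + 2) : ℝ) : ℂ) *
        (v (z + 1) p.1 * v (z + 1) p.2) =
      ((A + ((l + 1 : ℕ) : ℝ) : ℝ) : ℂ) * (d A (l + 1) p.1 * (v (z + 1) p.1 * v (z + 1) p.2)) -
      ((A + ((l + 1 : ℕ) : ℝ) : ℝ) : ℂ) *
        (d A (l + 1) (p.2 + 1) * (v (z + 1) p.1 * v (z + 1) p.2)) := by
    intro p hp
    rw [coef (by omega) (by omega) p.1 p.2 (Finset.HasAntidiagonal.mem_antidiagonal.1 hp)]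
    push_cast
    ring
  rw [Finset.sum_congr rfl e, Finset.sum_sub_distrib]
  have hs : ∑ p ∈ Finset.HasAntidiagonal.antidiagonal (K + l),
      ((A + ((l + 1 : ℕ) : ℝ) : ℝ) : ℂ) *
        (d A (l + 1) (p.2 + 1) * (v (z + 1) p.1 * v (z + 1) p.2)) =
      ∑ p ∈ Finset.HasAntidiagonal.antidiagonal (K + l),
      ((A + ((l + 1 : ℕ) : ℝ) : ℝ) : ℂ) *
        (d A (l + 1) (p.1 + 1) * (v (z + 1) p.1 * v (z + 1) p.2)) := by
    rw [← Finset.Nat.sum_antidiagonal_swap]
    refine Finset.sum_congr rfl fun p _ => ?_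
    simp only [Prod.fst_swap, Prod.snd_swap]
    ring
  rw [hs, ← Finset.sum_sub_distrib]
  have e2 : ∀ p ∈ Finset.HasAntidiagonal.antidiagonal (K + l),
      ((A + ((l + 1 : ℕ) : ℝ) : ℝ) : ℂ) * (d A (l + 1) p.1 * (v (z + 1) p.1 * v (z + 1) p.2)) -
      ((A + ((l + 1 : ℕ) : ℝ) : ℝ) : ℂ) *
        (d A (l + 1) (p.1 + 1) * (v (z + 1) p.1 * v (z + 1) p.2)) =
      ((A + ((l + 1 : ℕ) : ℝ) : ℝ) : ℂ) *
        ((if p.1 = 0 then ((A - 1 : ℝ) : ℂ) * v (z + 1) (K + l) else 0) +
          (if p.1 = l then v (z + 1) l * v (z + 1) K else 0)) := by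
    rintro ⟨p, q⟩ hp
    have hp' : p + q = K + l := Finset.HasAntidiagonal.mem_antidiagonal.1 hp
    simp only [d]
    rw [if_neg (by omega : ¬ p + 1 = 0)]
    rcases Nat.eq_zero_or_pos p with rfl | hp0
    · have hq : q = K + l := by omega
      subst hq
      rw [if_pos rfl, if_pos rfl, if_neg (by omega : ¬ 0 = l), if_pos (by omega), v_zero]
      push_cast
      ring
    · rw [if_neg (by omega : ¬ p = 0), if_neg (by omega : ¬ p = 0)]
      by_cases h1 : p = l
      · have hq : q = K := by omega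
        subst hq h1
        rw [if_pos (by omega), if_neg (by omega), if_pos rfl]
        push_cast
        ring
      · rw [if_neg h1]
        by_cases h2 : p < l
        · rw [if_pos (by omega), if_pos (by omega)]; simp
        · rw [if_neg (by omega), if_neg (by omega)]; simp
  rw [Finset.sum_congr rfl e2, ← Finset.mul_sum, Finset.sum_add_distrib,
    Finset.Nat.sum_antidiagonal_eq_sum_range_succ_mk,
    Finset.Nat.sum_antidiagonal_eq_sum_range_succ_mk]
  congr 2
  · simp
  · rw [Finset.sum_ite_eq' ]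
    rw [if_pos (Finset.mem_range.2 (by omega))]

end Pool.Agent.KS6_52.HZ
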