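import Pool.Agent.KS6_52.HZ.Seq

/-!
# Zeros with positive real part
-/

set_option autoImplicit false

noncomputable section

namespace Pool.Agent.KS6_52.HZ

open Complex in
lemma polar {a : ℝ} (ha : 0 < a) (y : ℝ) :
    (a : ℂ) + y * I = ((√(a ^ 2 + y ^ 2) : ℝ) : ℂ) * exp ((Real.arctan (y / a) : ℝ) * I) := by
  have h1 : 0 < √(1 + (y / a) ^ 2) := Real.sqrt_pos.2 (by positivity)
  have h2 : √(a ^ 2 + y ^ 2) = a * √(1 + (y / a) ^ 2) := by
    rw [show a ^ 2 + y ^ 2 = a ^ 2 * (1 + (y / a) ^ 2) by field_simp,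
      Real.sqrt_mul (by positivity), Real.sqrt_sq ha.le]
  rw [exp_mul_I, ← ofReal_cos, ← ofReal_sin, Real.cos_arctan, Real.sin_arctan, h2]
  apply Complex.ext
  · simp
    field_simp
  · simp
    field_simp

/-- The argument of `(x + a + i y) ⋯ (x + a + l - 1 + i y)`. -/
def th (l : ℕ) (a y : ℝ) : ℝ := ∑ j ∈ Finset.range l, Real.arctan (y / (a + j))

open Complex in
lemma poc_polar {a : ℝ} (ha : 0 < a) (y : ℝ) (l : ℕ) :
    ∃ R : ℝ, 0 < R ∧ poc ((a : ℂ) + y * I) l = R * exp ((th l a y : ℝ) * I) := by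
  induction l with
  | zero => exact ⟨1, one_pos, by simp [poc_zero, th]⟩
  | succ l ih =>
    obtain ⟨R, hR, h⟩ := ih
    have hal : 0 < a + l := by positivity
    refine ⟨R * √((a + l) ^ 2 + y ^ 2), mul_pos hR (Real.sqrt_pos.2 (by positivity)), ?_⟩
    have e : (a : ℂ) + y * I + l = ((a + l : ℝ) : ℂ) + y * I := by push_cast; ring
    rw [poc_succ, h, e, polar hal]
    have e2 : th (l + 1) a y = th l a y + Real.arctan (y / (a + l)) := by
      simp [th, Finset.sum_range_succ]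
    rw [e2]
    push_cast
    rw [add_mul, exp_add]
    ring

lemma th_cont {a : ℝ} (ha : 0 < a) (l : ℕ) : Continuous (th l a) := by
  unfold th
  refine continuous_finsetSum _ fun j _ => Real.continuous_arctan.comp ?_
  exact continuous_id.div_const _

lemma th_zero (l : ℕ) (a : ℝ) : th l a 0 = 0 := by simp [th]

open Complex in
/-- If the two arguments differ by at least `π` somewhere, the quotient of the two rising
factorials is a negative real number somewhere. -/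
lemma exists_neg {x : ℝ} (hx : 0 ≤ x) {l K : ℕ} {y0 : ℝ} (hy0 : 0 ≤ y0)
    (h : Real.pi ≤ th l (x + 1) y0 - th l (x + 1 + K) y0) :
    ∃ y : ℝ, ∃ ρ : ℝ, 0 < ρ ∧
      poc ((x : ℂ) + y * I + 1) l = -(ρ : ℂ) * poc ((x : ℂ) + y * I + 1 + K) l := by
  have hc : ContinuousOn (fun y => th l (x + 1) y - th l (x + 1 + K) y) (Set.Icc 0 y0) :=
    ((th_cont (by positivity) l).sub (th_cont (by positivity) l)).continuousOn
  obtain ⟨y, -, hy⟩ := intermediate_value_Icc hy0 hc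
    (show Real.pi ∈ Set.Icc _ _ from ⟨by simp [th_zero, Real.pi_pos.le], h⟩)
  simp only at hy
  obtain ⟨R, hR, e1⟩ := poc_polar (show (0 : ℝ) < x + 1 by positivity) y l
  obtain ⟨S, hS, e2⟩ := poc_polar (show (0 : ℝ) < x + 1 + K by positivity) y l
  refine ⟨y, R / S, div_pos hR hS, ?_⟩
  have f1 : (x : ℂ) + y * I + 1 = ((x + 1 : ℝ) : ℂ) + y * I := by push_cast; ring
  have f2 : (x : ℂ) + y * I + 1 + K = ((x + 1 + K : ℝ) : ℂ) + y * I := by push_cast; ring
  have hS' : (S : ℂ) ≠ 0 := by exact_mod_cast hS.ne'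
  rw [f2, f1, e1, e2, show th l (x + 1) y = Real.pi + th l (x + 1 + K) y by linarith]
  push_cast
  rw [add_mul, exp_add, exp_pi_mul_I]
  field_simp

/-- The zero of `P_n^2`. -/
lemma zero {z : ℂ} {K l : ℕ} (hl : 1 ≤ l) (hK : l + 1 ≤ K) {ρ : ℝ}
    (h : poc (z + 1) l = -(ρ : ℂ) * poc (z + 1 + K) l) :
    Polynomial.aeval z (P (K + l + 2) 2
      (F (K + l + 2) (l + 1) (1 + ρ * ((K + l).factorial / (K.factorial * l.factorial))))) = 0 := by
  rw [evF z hl hK]
  have h1 : (((K + l).factorial : ℕ) : ℂ) ≠ 0 := by exact_mod_cast Nat.factorial_ne_zero _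
  have h2 : ((K.factorial : ℕ) : ℂ) ≠ 0 := by exact_mod_cast Nat.factorial_ne_zero _
  have h3 : ((l.factorial : ℕ) : ℂ) ≠ 0 := by exact_mod_cast Nat.factorial_ne_zero _
  have e : ((1 + ρ * ((K + l).factorial / (K.factorial * l.factorial)) - 1 : ℝ) : ℂ) *
      v (z + 1) (K + l) + v (z + 1) l * v (z + 1) K = 0 := by
    simp only [v]
    rw [poc_add, h]
    push_cast
    field_simp
    ring
  rw [e, mul_zero]

lemma poc_one (k : ℕ) : poc 1 k = k.factorial := by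
  induction k with
  | zero => simp [poc_zero]
  | succ k ih => rw [poc_succ, ih, Nat.factorial_succ]; push_cast; ring

lemma ne_zero {K l : ℕ} (hl : 1 ≤ l) (hK : l + 1 ≤ K) {A : ℝ} (hA : 1 ≤ A) :
    P (K + l + 2) 2 (F (K + l + 2) (l + 1) A) ≠ 0 := by
  intro h0
  have h := evF 0 (A := A) hl hK
  rw [h0, map_zero, zero_add] at h
  have hv : ∀ k, v 1 k = 1 := by
    intro k
    have : (k.factorial : ℂ) ≠ 0 := by exact_mod_cast Nat.factorial_ne_zero _
    rw [v, poc_one, div_self this]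
  rw [hv, hv, hv] at h
  have h1 : (((K + l + 2).factorial : ℕ) : ℂ) ≠ 0 := by exact_mod_cast Nat.factorial_ne_zero _
  have h2 : ((A + ((l + 1 : ℕ) : ℝ) : ℝ) : ℂ) ≠ 0 := by
    have : (0 : ℝ) < A + ((l + 1 : ℕ) : ℝ) := by positivity
    exact_mod_cast this.ne'
  have h3 : ((A - 1 : ℝ) : ℂ) * 1 + 1 * 1 ≠ 0 := by
    have : (A : ℂ) ≠ 0 := by exact_mod_cast (show (0:ℝ) < A by linarith).ne'
    push_cast
    ring_nf
    exact this
  exact mul_ne_zero (mul_ne_zero h1 h2) h3 h.symm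

/-- The counterexample. -/
lemma exists_zero {x : ℝ} (hx : 0 ≤ x) {l K : ℕ} (hl : 1 ≤ l) (hK : l + 1 ≤ K) {y0 : ℝ}
    (hy0 : 0 ≤ y0) (h : Real.pi ≤ th l (x + 1) y0 - th l (x + 1 + K) y0) :
    ∃ f : ℤ → ℝ, IsPF 2 (K + l + 2) f ∧ P (K + l + 2) 2 f ≠ 0 ∧
      ∃ z : ℂ, z.re = x ∧ Polynomial.aeval z (P (K + l + 2) 2 f) = 0 := by
  obtain ⟨y, ρ, hρ, e⟩ := exists_neg hx hy0 h
  have hA : 1 ≤ 1 + ρ * (((K + l).factorial : ℝ) / (K.factorial * l.factorial)) := by
    have : 0 ≤ ρ * (((K + l).factorial : ℝ) / (K.factorial * l.factorial)) := by positivity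
    linarith
  exact ⟨_, F_pf (m := l + 1) hA (by omega), ne_zero hl hK hA, _, by simp, zero hl hK e⟩

end Pool.Agent.KS6_52.HZ
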